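import Mathlib
import Pool.Agent.H59.PP2

set_option autoImplicit false

namespace Pool.Agent.Results.MP_60b32f_nt.Unbounded

open Finset Pool.Agent.H59.PP

/-- `S` is a partition of `n` into distinct primes. -/
def IsPart (n : ℕ) (S : Finset ℕ) : Prop := (∀ p ∈ S, p.Prime) ∧ ∑ p ∈ S, p = n

theorem result : ∀ C : ℕ, ∃ n : ℕ, 2 ≤ n ∧ ∃ S : Finset ℕ, IsPart n S ∧
    (∀ T : Finset ℕ, IsPart n T → ∏ p ∈ T, p ≤ ∏ p ∈ S, p) ∧
    ∃ T : Finset ℕ, IsPart n T ∧ S.card + C < T.card := by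
  intro C
  obtain ⟨c, hc⟩ := straddle
  obtain ⟨R0, r1, r2⟩ := chain (c + C + 1)
  set s := ∑ p ∈ R0, p with hs
  set Q := ∏ p ∈ R0, p with hQ
  set N := (6 * Q + 1).factorial with hN
  have N0 : 0 < N := Nat.factorial_pos _
  obtain ⟨q, q', hq, hq', l, U, u1, u2, u3, u4⟩ := hc s (N + 6 * Q + 2) (s + 18 * Q + 4)
  set y := N * (q / N + 1) + 1 with hy
  have y1 : q < y := by have := Nat.lt_mul_div_succ q N0; omega
  have y2 : y ≤ q + N + 1 := by have := Nat.mul_div_le q N; rw [hy, mul_add]; omega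
  have gap : ∀ a, a.Prime → y < a → y + 6 * Q < a := fun a ha h => by
    by_contra hc
    obtain ⟨j, hj⟩ := Nat.exists_eq_add_of_lt h
    have : 0 < N * (q / N + 1) := by positivity
    refine np ha (d := j + 2) ?_ (by omega) (by omega)
    rw [show a = N * (q / N + 1) + (j + 2) by omega]
    exact dvd_add ((Nat.dvd_factorial (by omega) (by omega)).mul_right _) dvd_rfl
  set F := y.primesLE with hF
  have mF : ∀ p, p ∈ F ↔ p ≤ y ∧ p.Prime := fun p => Nat.mem_primesLE
  have le : ∀ (S : Finset ℕ) p, p ∈ S → p ≤ ∑ p ∈ S, p := fun S p h =>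
    single_le_sum (f := fun p : ℕ => p) (fun _ _ => Nat.zero_le _) h
  have s0 : R0 ⊆ F := fun p hp => (mF p).2 ⟨by have := le _ _ hp; omega, r1 p hp⟩
  have nq : q ∉ U := fun h => by have := le _ _ h; omega
  have s1 : insert q U ⊆ F := insert_subset ((mF q).2 ⟨y1.le, hq⟩) fun p hp =>
    (mF p).2 ⟨by have := le _ _ hp; omega, u1 p hp⟩
  set n := ∑ p ∈ F \ R0, p with hn
  have e0 : n + s = ∑ p ∈ F, p := sum_sdiff s0
  have p0 : IsPart n (F \ R0) := ⟨fun p hp => ((mF p).1 (mem_sdiff.1 hp).1).2, rfl⟩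
  have nq' : q' ∉ F \ insert q U := fun h => by have := ((mF _).1 (mem_sdiff.1 h).1).1; omega
  have p1 : IsPart n (insert q' (F \ insert q U)) := by
    refine ⟨fun p hp => ?_, ?_⟩
    · rcases mem_insert.1 hp with rfl | hp
      exacts [hq', ((mF p).1 (mem_sdiff.1 hp).1).2]
    · have := sum_sdiff (f := fun p : ℕ => p) s1
      rw [sum_insert nq] at this
      rw [sum_insert nq']
      omega
  have c1 : F.card ≤ (insert q' (F \ insert q U)).card + c := by
    have := card_sdiff_add_card_eq_card s1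
    rw [card_insert_of_notMem nq] at this
    rw [card_insert_of_notMem nq']
    omega
  classical
  obtain ⟨S, hS, mx⟩ := exists_max_image ((range (n + 1)).powerset.filter (IsPart n))
    (fun S => ∏ p ∈ S, p) ⟨_, mem_filter.2 ⟨mem_powerset.2 fun p hp =>
      mem_range.2 (Nat.lt_succ_of_le (le _ _ hp)), p0⟩⟩
  have hS := (mem_filter.1 hS).2
  have mx : ∀ T, IsPart n T → ∏ p ∈ T, p ≤ ∏ p ∈ S, p := fun T hT => mx T (mem_filter.2
    ⟨mem_powerset.2 fun p hp => mem_range.2 (Nat.lt_succ_of_le (hT.2 ▸ le _ _ hp)), hT⟩)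
  have a1 := sum_sdiff (f := fun p : ℕ => p) (inter_subset_left (s₁ := S) (s₂ := F))
  have a2 := sum_sdiff (f := fun p : ℕ => p) (inter_subset_right (s₁ := S) (s₂ := F))
  have b1 := prod_sdiff (f := fun p : ℕ => p) (inter_subset_left (s₁ := S) (s₂ := F))
  have b2 := prod_sdiff (f := fun p : ℕ => p) (inter_subset_right (s₁ := S) (s₂ := F))
  have b3 := prod_sdiff (f := fun p : ℕ => p) s0
  rw [sdiff_inter_self_left] at a1 b1
  rw [sdiff_inter_self_right] at a2 b2
  have a3 : ∑ p ∈ F \ S, p = s + ∑ p ∈ S \ F, p := by have := hS.2; omega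
  have b4 : ∏ p ∈ F \ S, p ≤ Q * ∏ p ∈ S \ F, p := by
    have i0 : 0 < ∏ p ∈ S ∩ F, p := prod_pos fun p hp => (hS.1 p (mem_inter.1 hp).1).pos
    refine Nat.le_of_mul_le_mul_right ?_ i0
    rw [b2, mul_assoc, b1, ← b3, mul_comm]
    exact Nat.mul_le_mul_left _ (mx _ p0)
  have A0 := noadd (y := y) (Q := Q) (by omega) (F \ S) (S \ F) (fun r hr => by
      have := (mF r).1 (mem_sdiff.1 hr).1
      exact ⟨this.2.two_le, this.1⟩)
    (fun a ha => gap a (hS.1 a (mem_sdiff.1 ha).1) (by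
      by_contra h
      exact (mem_sdiff.1 ha).2 ((mF a).2 ⟨by omega, hS.1 a (mem_sdiff.1 ha).1⟩))) (by omega) b4
  rw [A0] at a3 b4
  have k := r2 (F \ S) (fun p hp => ((mF p).1 (mem_sdiff.1 hp).1).2) (by simpa using a3)
    (by simpa using b4)
  have c2 := card_sdiff_add_card_eq_card (sdiff_eq_empty_iff_subset.1 A0)
  refine ⟨n, ?_, S, hS, mx, _, p1, by omega⟩
  have := le _ _ (mem_insert_self q' (F \ insert q U))
  have := hq'.two_le
  have := p1.2
  omega

end Pool.Agent.Results.MP_60b32f_nt.Unbounded
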